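import Pool.Agent.Helper69.MC.StA

/-!
# Project MC (MP_9583f0_gt), module HSS

Singular points of a minimal Plateau surface are not on one side of a horizontal plane.
-/

set_option autoImplicit false

open Set Topology Filter MeasureTheory
open Pool.Agent.Helper31.CY Pool.Agent.Helper69.MF Pool.Agent.Helper69.MC

namespace Pool.Agent.Helper80.MC

/-- linear functionals on `E3` in coordinates -/
theorem lin_pt (l : E3 →L[ℝ] ℝ) (a b c : ℝ) :
    l (pt a b c) = a * l (bv 0) + b * l (bv 1) + c * l (bv 2) := by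
  have h : pt a b c = a • bv 0 + b • bv 1 + c • bv 2 := by
    ext i
    fin_cases i <;> simp [pt, bv]
  rw [h]
  simp

/-- a functional which vanishes on the basis is zero -/
theorem lin_zero (l : E3 →L[ℝ] ℝ) (h0 : l (bv 0) = 0) (h1 : l (bv 1) = 0) (h2 : l (bv 2) = 0)
    (x : E3) : l x = 0 := by
  have h : x = pt (x 0) (x 1) (x 2) := by
    ext i
    fin_cases i <;> simp [pt]
  rw [h, lin_pt, h0, h1, h2]
  ring

/-- the third coordinate of a contingent vector -/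
theorem tcn_nonneg (S : Set E3) (p : E3) (c : ℝ)
    (h : ∃ r : ℝ, 0 < r ∧ ∀ x ∈ S, dist x p < r → 0 ≤ c * (x 2 - p 2)) (v : E3)
    (hv : v ∈ TCn S p) : 0 ≤ c * v 2 := by
  obtain ⟨r, hr, hS⟩ := h
  obtain ⟨x, t, hx, ht, hxp, hlim⟩ := hv
  have hc : Continuous (fun y : E3 => c * y 2) := by fun_prop
  have h1 : Tendsto (fun n => c * (t n • (x n - p)) 2) atTop (𝓝 (c * v 2)) :=
    (hc.tendsto v).comp hlim
  have h2 : ∀ᶠ n in atTop, dist (x n) p < r := by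
    have := hxp (Metric.ball_mem_nhds p hr)
    simpa using this
  refine ge_of_tendsto h1 ?_
  filter_upwards [h2] with n hn
  have h3 := hS (x n) (hx n) hn
  have h4 : c * (t n • (x n - p)) 2 = t n * (c * (x n 2 - p 2)) := by
    simp
    ring
  rw [h4]
  exact mul_nonneg (ht n).le h3

/-- the general argument -/
theorem key (h1 : StTC1) (S M : Set E3) (p : E3) (hM : IsClosed M)
    (hc : ∀ l : ℝ, 0 ≤ l → ∀ y ∈ M, l • y ∈ M) (hm : ModelAt S M p)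
    (hs : ∀ l : E3 →L[ℝ] ℝ, (∀ w ∈ M, 0 ≤ l w) → ∀ x, l x = 0) (c : ℝ) (hc0 : c ≠ 0) :
    ¬ (∃ r : ℝ, 0 < r ∧ ∀ x ∈ S, dist x p < r → 0 ≤ c * (x 2 - p 2)) := by
  intro hr
  obtain ⟨Φ, U, hU, hp, hΦ, hΦp, hiso, hSM⟩ := hm
  let L : E3 →ₗᵢ[ℝ] E3 := ⟨(fderiv ℝ Φ p : E3 →L[ℝ] E3), hiso⟩
  let A : E3 ≃L[ℝ] E3 := (L.toLinearIsometryEquiv rfl).toContinuousLinearEquiv
  have hA : (A : E3 →L[ℝ] E3) = fderiv ℝ Φ p := by
    ext v
    rfl
  have hstr : HasStrictFDerivAt Φ (A : E3 →L[ℝ] E3) p := by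
    rw [hA]
    exact (hΦ.contDiffAt (hU.mem_nhds hp)).hasStrictFDerivAt one_ne_zero
  have hT := h1 E3 E3 S p Φ A M U hstr hΦp (hU.mem_nhds hp) hSM hM hc
  let l : E3 →L[ℝ] ℝ := c • ((EuclideanSpace.proj (2 : Fin 3) : E3 →L[ℝ] ℝ).comp
    (A.symm : E3 →L[ℝ] E3))
  have hl : ∀ w, l w = c * (A.symm w) 2 := fun w => rfl
  have hl0 : ∀ w ∈ M, 0 ≤ l w := by
    intro w hw
    rw [hl]
    apply tcn_nonneg S p c hr
    rw [hT]
    simpa using hw
  have h5 := hs l hl0 (A (bv 2))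
  rw [hl] at h5
  simp [bv, hc0] at h5

/-- functionals which are nonnegative on `Y` -/
theorem span_Y (l : E3 →L[ℝ] ℝ) (h : ∀ w ∈ Ycone, 0 ≤ l w) (x : E3) : l x = 0 := by
  have a1 : pt 1 0 0 ∈ Ycone := ⟨1, zero_le_one, Or.inl (by simp [pt])⟩
  have a2 : pt (-(1 / 2)) (Real.sqrt 3 / 2) 0 ∈ Ycone :=
    ⟨1, zero_le_one, Or.inr (Or.inl (by simp [pt]))⟩
  have a3 : pt (-(1 / 2)) (-(Real.sqrt 3 / 2)) 0 ∈ Ycone :=
    ⟨1, zero_le_one, Or.inr (Or.inr (by simp [pt]))⟩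
  have a4 : pt 0 0 1 ∈ Ycone := ⟨0, le_rfl, Or.inl (by simp [pt])⟩
  have a5 : pt 0 0 (-1) ∈ Ycone := ⟨0, le_rfl, Or.inl (by simp [pt])⟩
  have b1 := h _ a1
  have b2 := h _ a2
  have b3 := h _ a3
  have b4 := h _ a4
  have b5 := h _ a5
  rw [lin_pt] at b1 b2 b3 b4 b5
  have h0 : l (bv 0) = 0 := by linarith
  have hs3 : 0 < Real.sqrt 3 := Real.sqrt_pos.mpr (by norm_num)
  have h1 : l (bv 1) = 0 := by
    rw [h0] at b2 b3
    have c2 : 0 ≤ Real.sqrt 3 * l (bv 1) := by linarith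
    have c3 : Real.sqrt 3 * l (bv 1) ≤ 0 := by linarith
    have c4 : Real.sqrt 3 * l (bv 1) = 0 := le_antisymm c3 c2
    rcases mul_eq_zero.mp c4 with h | h
    · exact absurd h hs3.ne'
    · exact h
  have h2 : l (bv 2) = 0 := by linarith
  exact lin_zero l h0 h1 h2 x

/-- functionals which are nonnegative on `T` -/
theorem span_T (l : E3 →L[ℝ] ℝ) (h : ∀ w ∈ Tcone, 0 ≤ l w) (x : E3) : l x = 0 := by
  have a : ∀ i : Fin 4, tv i ∈ Tcone := by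
    intro i
    obtain ⟨j, hj⟩ := exists_ne i
    exact ⟨i, j, hj.symm, 1, 0, zero_le_one, le_rfl, by simp⟩
  have b0 : 0 ≤ l (pt 1 1 1) := h _ (a 0)
  have b1 : 0 ≤ l (pt 1 (-1) (-1)) := h _ (a 1)
  have b2 : 0 ≤ l (pt (-1) 1 (-1)) := h _ (a 2)
  have b3 : 0 ≤ l (pt (-1) (-1) 1) := h _ (a 3)
  rw [lin_pt] at b0 b1 b2 b3
  exact lin_zero l (by linarith) (by linarith) (by linarith) x

/-- module HSS -/
theorem hHSS (h1 : StTC1) (hY : StMDY) (hT : StMDT) : StHSS := by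
  intro S p hm
  have hk : ∀ c : ℝ, c ≠ 0 →
      ¬ (∃ r : ℝ, 0 < r ∧ ∀ x ∈ S, dist x p < r → 0 ≤ c * (x 2 - p 2)) := by
    intro c hc
    rcases hm with hm | hm
    · exact key h1 S Ycone p hY.1 hY.2.1 hm span_Y c hc
    · exact key h1 S Tcone p hT.1 hT.2.1 hm span_T c hc
  rintro (⟨r, hr, hS⟩ | ⟨r, hr, hS⟩)
  · exact hk 1 one_ne_zero ⟨r, hr, fun x hx hd => by linarith [hS x hx hd]⟩
  · exact hk (-1) (by norm_num) ⟨r, hr, fun x hx hd => by linarith [hS x hx hd]⟩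

end Pool.Agent.Helper80.MC
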